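import Mathlib

set_option autoImplicit false
set_option linter.unusedSectionVars false

open MeasureTheory ProbabilityTheory
open scoped ENNReal NNReal

namespace Pool.Agent.V11321.BP

variable {E : Type*}

/-- Independent states, all with law `ν`. -/
noncomputable def PB (ν : Measure Bool) : Measure (E → Bool) :=
  Measure.infinitePi (fun _ => ν)

instance (ν : Measure Bool) [IsProbabilityMeasure ν] : IsProbabilityMeasure (PB ν : Measure (E → Bool)) := by
  unfold PB; infer_instance

/-- Independence of events which depend on disjoint sets of coordinates. -/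
lemma inter_of_dependsOn (ν : Measure Bool) [IsProbabilityMeasure ν] {I J : Set E}
    (hIJ : Disjoint I J) {A B : Set (E → Bool)}
    (hAm : MeasurableSet A) (hBm : MeasurableSet B) (hA : DependsOn (fun ω => ω ∈ A) I)
    (hB : DependsOn (fun ω => ω ∈ B) J) : PB ν (A ∩ B) = PB ν A * PB ν B := by
  classical
  have hind : iIndepFun (fun (i : E) (ω : E → Bool) => ω i) (PB ν) := by
    unfold PB
    exact iIndepFun_infinitePi (X := fun _ x => x) (fun _ => measurable_id)
  have hI : iIndep (fun i => MeasurableSpace.comap (fun ω : E → Bool => ω i) inferInstance) (PB ν) :=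
    (iIndepFun_iff_iIndep _ _ _).mp hind
  have h2 := indep_iSup_of_disjoint (fun i => (measurable_pi_apply i).comap_le) hI hIJ
  have key : ∀ (K : Set E) (D : Set (E → Bool)), MeasurableSet D → DependsOn (fun ω => ω ∈ D) K →
      MeasurableSet[⨆ i ∈ K, MeasurableSpace.comap (fun ω : E → Bool => ω i) inferInstance] D := by
    intro K D hD hdep
    have hg : @Measurable _ _ (⨆ i ∈ K, MeasurableSpace.comap (fun ω : E → Bool => ω i) inferInstance) _
        (fun (ω : E → Bool) (e : E) => if e ∈ K then ω e else false) := by
      refine @measurable_pi_lambda _ _ _ (_) _ _ fun e => ?_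
      by_cases he : e ∈ K
      · simp only [he, if_true]
        have h3 : MeasurableSpace.comap (fun ω : E → Bool => ω e) inferInstance ≤
            ⨆ i ∈ K, MeasurableSpace.comap (fun ω : E → Bool => ω i) inferInstance :=
          le_iSup₂ (f := fun i (_ : i ∈ K) => MeasurableSpace.comap (fun ω : E → Bool => ω i) inferInstance) e he
        exact Measurable.mono (comap_measurable _) h3 le_rfl
      · simp only [he, if_false]
        exact measurable_const
    have heq : D = (fun (ω : E → Bool) (e : E) => if e ∈ K then ω e else false) ⁻¹' D := by
      ext ω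
      have := hdep (x := ω) (y := fun e => if e ∈ K then ω e else false) (fun e he => by simp [he])
      simp only [eq_iff_iff] at this
      exact this
    rw [heq]
    exact hg hD
  have h3 := (Indep_iff _ _ _).mp h2 A B (key I A hAm hA) (key J B hBm hB)
  exact h3

lemma PB_coord (ν : Measure Bool) [IsProbabilityMeasure ν] (x : E) (s : Set Bool) :
    PB ν {ω : E → Bool | ω x ∈ s} = ν s := by
  have := (measurePreserving_eval_infinitePi (fun _ : E => ν) x).measure_preimage
    (s := s) (MeasurableSet.of_discrete).nullMeasurableSet
  exact this

end Pool.Agent.V11321.BP
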