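import Mathlib
import Pool.Agent.V11321.BP.Indep

set_option autoImplicit false
set_option linter.unusedSectionVars false

open MeasureTheory ProbabilityTheory
open scoped ENNReal NNReal

namespace Pool.Agent.V11321.BP

/-- Cells. -/
abbrev Cell := ℤ × ℤ

/-- Vertices: four in each cell. -/
abbrev Vx := Cell × Bool × Bool

/-- Some vertex of the cell is infected. -/
def bad (ω : Vx → Bool) (v : Cell) : Prop := ∃ s i : Bool, ω (v, s, i) = true

/-- The height. -/
def ht (v : Cell) : ℤ := v.1 - v.2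

/-- Cells reached in at most `n` steps from the half plane `ht ≤ 0`. -/
def T (ω : Vx → Bool) : ℕ → Cell → Prop
  | 0, v => ht v ≤ 0
  | n + 1, v => T ω n v ∨ T ω n (v.1, v.2 - 1) ∨ T ω n (v.1 + 1, v.2) ∨
      (bad ω v ∧ T ω n (v.1 - 1, v.2 + 1))

lemma T_succ_of {ω : Vx → Bool} {n : ℕ} {v : Cell} (h : T ω n v) : T ω (n + 1) v := Or.inl h

lemma T_mono {ω : Vx → Bool} {m n : ℕ} (hmn : m ≤ n) {v : Cell} (h : T ω m v) : T ω n v := by
  induction n, hmn using Nat.le_induction with
  | base => exact h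
  | succ n _ ih => exact Or.inl ih

/-- The same with the visited cells forbidden. -/
def R : ℕ → Set Cell → Cell → Set (Vx → Bool)
  | 0, _, v => {_ω | ht v ≤ 0}
  | n + 1, F, v => {_ω | ht v ≤ 0} ∪ ({ω | (v.1, v.2 - 1) ∉ insert v F ∧ ω ∈ R n (insert v F) (v.1, v.2 - 1)} ∪
      ({ω | (v.1 + 1, v.2) ∉ insert v F ∧ ω ∈ R n (insert v F) (v.1 + 1, v.2)} ∪
      {ω | bad ω v ∧ (v.1 - 1, v.2 + 1) ∉ insert v F ∧ ω ∈ R n (insert v F) (v.1 - 1, v.2 + 1)}))

lemma R_mono_succ (n : ℕ) : ∀ (F : Set Cell) (v : Cell), R n F v ⊆ R (n + 1) F v := by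
  induction n with
  | zero => intro F v; exact Set.subset_union_left
  | succ n ih =>
    intro F v
    refine Set.union_subset_union_right _ (Set.union_subset_union ?_ (Set.union_subset_union ?_ ?_))
    · rintro ω ⟨h1, h2⟩
      exact ⟨h1, ih _ _ h2⟩
    · rintro ω ⟨h1, h2⟩
      exact ⟨h1, ih _ _ h2⟩
    · rintro ω ⟨h1, h2, h3⟩
      exact ⟨h1, h2, ih _ _ h3⟩

lemma mem_R_of_T {ω : Vx → Bool} (n : ℕ) : ∀ (F : Set Cell) (v : Cell), T ω n v →
    (∀ u ∈ F, ¬ T ω n u) → ω ∈ R n F v := by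
  induction n with
  | zero => intro F v h _; exact h
  | succ n ih =>
    intro F v h hF
    by_cases hv : T ω n v
    · exact R_mono_succ n F v (ih F v hv (fun u hu hT => hF u hu (Or.inl hT)))
    · have hins : ∀ u ∈ insert v F, ¬ T ω n u := by
        rintro u (rfl | hu) hT
        · exact hv hT
        · exact hF u hu (Or.inl hT)
      rcases h with h | h | h | ⟨hb, h⟩
      · exact absurd h hv
      · exact Or.inr (Or.inl ⟨fun hm => hins _ hm h, ih _ _ h hins⟩)
      · exact Or.inr (Or.inr (Or.inl ⟨fun hm => hins _ hm h, ih _ _ h hins⟩))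
      · exact Or.inr (Or.inr (Or.inr ⟨hb, fun hm => hins _ hm h, ih _ _ h hins⟩))

/-- The coordinates of the cells outside `F`. -/
def off (F : Set Cell) : Set Vx := {x | x.1 ∉ F}

lemma bad_congr {ω ω' : Vx → Bool} {v : Cell} (h : ∀ x : Vx, x.1 = v → ω x = ω' x) :
    bad ω v ↔ bad ω' v := by
  unfold bad
  constructor
  · rintro ⟨s, i, hs⟩
    exact ⟨s, i, by rw [← h (v, s, i) rfl]; exact hs⟩
  · rintro ⟨s, i, hs⟩
    exact ⟨s, i, by rw [h (v, s, i) rfl]; exact hs⟩

lemma R_dependsOn (n : ℕ) : ∀ (F : Set Cell) (v : Cell), v ∉ F →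
    DependsOn (fun ω : Vx → Bool => ω ∈ R n F v) (off F) := by
  induction n with
  | zero => intro F v _ ω ω' _; rfl
  | succ n ih =>
    intro F v hv ω ω' h
    have h' : ∀ x ∈ off (insert v F), ω x = ω' x := fun x hx => h x (fun hxF => hx (Or.inr hxF))
    have hb : bad ω v ↔ bad ω' v := bad_congr (fun x hx => h x (by
      show x.1 ∉ F
      rw [hx]; exact hv))
    have key : ∀ w, w ∉ insert v F → (ω ∈ R n (insert v F) w ↔ ω' ∈ R n (insert v F) w) := by
      intro w hw
      have := ih (insert v F) w hw h'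
      simpa using this
    simp only [R, Set.mem_union, Set.mem_ofPred_eq, eq_iff_iff]
    refine or_congr Iff.rfl (or_congr ?_ (or_congr ?_ ?_))
    · exact and_congr_right fun hw => key _ hw
    · exact and_congr_right fun hw => key _ hw
    · rw [hb]
      exact and_congr_right fun _ => and_congr_right fun hw => key _ hw

lemma measurableSet_bad (v : Cell) : MeasurableSet {ω : Vx → Bool | bad ω v} := by
  have : {ω : Vx → Bool | bad ω v} = ⋃ s : Bool, ⋃ i : Bool, {ω | ω (v, s, i) = true} := by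
    ext ω
    simp [bad]
  rw [this]
  refine MeasurableSet.iUnion fun s => MeasurableSet.iUnion fun i => ?_
  exact (measurable_pi_apply (v, s, i) : Measurable fun ω : Vx → Bool => ω (v, s, i))
    (measurableSet_singleton true)

lemma measurableSet_R (n : ℕ) : ∀ (F : Set Cell) (v : Cell), MeasurableSet (R n F v) := by
  induction n with
  | zero => intro F v; exact MeasurableSet.const _
  | succ n ih =>
    intro F v
    refine (MeasurableSet.const _).union (MeasurableSet.union ?_ (MeasurableSet.union ?_ ?_))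
    · exact (MeasurableSet.const _).inter (ih _ _)
    · exact (MeasurableSet.const _).inter (ih _ _)
    · exact (measurableSet_bad v).inter ((MeasurableSet.const _).inter (ih _ _))

/-- The bound. -/
noncomputable def Φ (y : ℤ) : ℝ≥0∞ := (1 / 4) ^ y.toNat

lemma Φ_step {q : ℝ≥0∞} (hq : q ≤ 1 / 32) {y : ℤ} (hy : 0 < y) :
    Φ (y + 1) + (Φ (y + 1) + q * Φ (y - 2)) ≤ Φ y := by
  have hq' : q ≤ ((1 / 32 : ℝ≥0) : ℝ≥0∞) := by
    refine hq.trans (le_of_eq ?_)
    push_cast
    norm_num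
  obtain ⟨n, rfl⟩ : ∃ n : ℕ, y = n + 1 := ⟨(y - 1).toNat, by omega⟩
  have e4 : (1 / 4 : ℝ≥0∞) = ((1 / 4 : ℝ≥0) : ℝ≥0∞) := by
    push_cast; norm_num
  have hq2 : q * Φ ((n : ℤ) + 1 - 2) ≤ ((1 / 32 : ℝ≥0) : ℝ≥0∞) * Φ ((n : ℤ) + 1 - 2) :=
    mul_le_mul' hq' le_rfl
  refine (add_le_add le_rfl (add_le_add le_rfl hq2)).trans ?_
  unfold Φ
  rw [e4]
  have t1 : ((n : ℤ) + 1 + 1).toNat = n + 2 := by omega
  have t2 : ((n : ℤ) + 1 - 2).toNat = n - 1 := by omega
  have t3 : ((n : ℤ) + 1).toNat = n + 1 := by omega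
  rw [t1, t2, t3]
  norm_cast
  rw [← NNReal.coe_le_coe]
  push_cast
  rcases n with _ | n
  · norm_num
  · have : n + 1 - 1 = n := by omega
    rw [this]
    have hpos : (0 : ℝ) < (1 / 4) ^ n := by positivity
    rw [pow_succ _ (n + 1 + 1), pow_succ _ (n + 1), pow_succ _ n]
    nlinarith

lemma P_R_le (ν : Measure Bool) [IsProbabilityMeasure ν]
    (hq : ∀ v, PB ν {ω : Vx → Bool | bad ω v} ≤ 1 / 32) (n : ℕ) :
    ∀ (F : Set Cell) (v : Cell), v ∉ F → PB ν (R n F v) ≤ Φ (ht v) := by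
  induction n with
  | zero =>
    intro F v _
    by_cases h : ht v ≤ 0
    · have : Φ (ht v) = 1 := by
        unfold Φ
        rw [Int.toNat_of_nonpos h, pow_zero]
      rw [this]
      exact prob_le_one
    · have : R 0 F v = ∅ := by
        ext ω
        simp [R, h]
      rw [this]
      simp
  | succ n ih =>
    intro F v hv
    by_cases h : ht v ≤ 0
    · have : Φ (ht v) = 1 := by
        unfold Φ
        rw [Int.toNat_of_nonpos h, pow_zero]
      rw [this]
      exact prob_le_one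
    push Not at h
    have h0 : PB ν ({_ω | ht v ≤ 0} : Set (Vx → Bool)) = 0 := by
      have : ({_ω | ht v ≤ 0} : Set (Vx → Bool)) = ∅ := by
        ext ω
        simp [h]
      rw [this]
      simp
    have hh1 : ht (v.1, v.2 - 1) = ht v + 1 := by simp [ht]; ring
    have hh2 : ht (v.1 + 1, v.2) = ht v + 1 := by simp [ht]; ring
    have hh3 : ht (v.1 - 1, v.2 + 1) = ht v - 2 := by simp [ht]; ring
    have h1 : PB ν {ω : Vx → Bool | (v.1, v.2 - 1) ∉ insert v F ∧ ω ∈ R n (insert v F) (v.1, v.2 - 1)} ≤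
        Φ (ht v + 1) := by
      by_cases hm : (v.1, v.2 - 1) ∉ insert v F
      · refine (measure_mono (fun ω hω => hω.2)).trans ?_
        rw [← hh1]
        exact ih _ _ hm
      · have : {ω : Vx → Bool | (v.1, v.2 - 1) ∉ insert v F ∧ ω ∈ R n (insert v F) (v.1, v.2 - 1)} = ∅ := by
          ext ω
          simp only [Set.mem_ofPred_eq, Set.mem_empty_iff_false, iff_false]
          exact fun hc => hm hc.1
        rw [this]
        simp
    have h2 : PB ν {ω : Vx → Bool | (v.1 + 1, v.2) ∉ insert v F ∧ ω ∈ R n (insert v F) (v.1 + 1, v.2)} ≤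
        Φ (ht v + 1) := by
      by_cases hm : (v.1 + 1, v.2) ∉ insert v F
      · refine (measure_mono (fun ω hω => hω.2)).trans ?_
        rw [← hh2]
        exact ih _ _ hm
      · have : {ω : Vx → Bool | (v.1 + 1, v.2) ∉ insert v F ∧ ω ∈ R n (insert v F) (v.1 + 1, v.2)} = ∅ := by
          ext ω
          simp only [Set.mem_ofPred_eq, Set.mem_empty_iff_false, iff_false]
          exact fun hc => hm hc.1
        rw [this]
        simp
    have h3 : PB ν {ω : Vx → Bool | bad ω v ∧ (v.1 - 1, v.2 + 1) ∉ insert v F ∧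
        ω ∈ R n (insert v F) (v.1 - 1, v.2 + 1)} ≤ PB ν {ω : Vx → Bool | bad ω v} * Φ (ht v - 2) := by
      by_cases hm : (v.1 - 1, v.2 + 1) ∉ insert v F
      · have e : {ω : Vx → Bool | bad ω v ∧ (v.1 - 1, v.2 + 1) ∉ insert v F ∧
            ω ∈ R n (insert v F) (v.1 - 1, v.2 + 1)} ⊆
            {ω : Vx → Bool | bad ω v} ∩ R n (insert v F) (v.1 - 1, v.2 + 1) :=
          fun ω hω => ⟨hω.1, hω.2.2⟩
        refine (measure_mono e).trans ?_
        rw [inter_of_dependsOn ν (I := {x : Vx | x.1 = v}) (J := off (insert v F))]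
        · rw [← hh3]
          exact mul_le_mul' le_rfl (ih _ _ hm)
        · rw [Set.disjoint_left]
          intro x hx hx'
          exact hx' (Or.inl hx)
        · exact measurableSet_bad v
        · exact measurableSet_R _ _ _
        · intro ω ω' hω
          simp only [Set.mem_ofPred_eq, eq_iff_iff]
          exact bad_congr fun x hx => hω x hx
        · exact R_dependsOn _ _ _ hm
      · have : {ω : Vx → Bool | bad ω v ∧ (v.1 - 1, v.2 + 1) ∉ insert v F ∧
            ω ∈ R n (insert v F) (v.1 - 1, v.2 + 1)} = ∅ := by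
          ext ω
          simp only [Set.mem_ofPred_eq, Set.mem_empty_iff_false, iff_false]
          exact fun hc => hm hc.2.1
        rw [this]
        simp
    calc PB ν (R (n + 1) F v) ≤ PB ν ({_ω | ht v ≤ 0} : Set (Vx → Bool)) +
        (PB ν {ω : Vx → Bool | (v.1, v.2 - 1) ∉ insert v F ∧ ω ∈ R n (insert v F) (v.1, v.2 - 1)} +
        (PB ν {ω : Vx → Bool | (v.1 + 1, v.2) ∉ insert v F ∧ ω ∈ R n (insert v F) (v.1 + 1, v.2)} +
        PB ν {ω : Vx → Bool | bad ω v ∧ (v.1 - 1, v.2 + 1) ∉ insert v F ∧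
          ω ∈ R n (insert v F) (v.1 - 1, v.2 + 1)})) := by
          refine (measure_union_le _ _).trans (add_le_add le_rfl ?_)
          refine (measure_union_le _ _).trans (add_le_add le_rfl ?_)
          exact measure_union_le _ _
      _ ≤ 0 + (Φ (ht v + 1) + (Φ (ht v + 1) + PB ν {ω : Vx → Bool | bad ω v} * Φ (ht v - 2))) := by
          rw [h0]
          exact add_le_add le_rfl (add_le_add h1 (add_le_add h2 h3))
      _ ≤ Φ (ht v) := by
          rw [zero_add]
          exact Φ_step (hq v) h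

/-- `v` is reached. -/
def Rc (ω : Vx → Bool) (v : Cell) : Prop := ∃ n, T ω n v

lemma P_Rc_le (ν : Measure Bool) [IsProbabilityMeasure ν]
    (hq : ∀ v, PB ν {ω : Vx → Bool | bad ω v} ≤ 1 / 32) (v : Cell) :
    PB ν {ω : Vx → Bool | Rc ω v} ≤ Φ (ht v) := by
  have h1 : {ω : Vx → Bool | Rc ω v} = ⋃ n, {ω | T ω n v} := by
    ext ω
    simp [Rc]
  have hmono : Monotone fun n => {ω : Vx → Bool | T ω n v} := fun m n hmn ω hω => T_mono hmn hω
  rw [h1, hmono.measure_iUnion]
  refine iSup_le fun n => ?_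
  refine (measure_mono (fun ω hω => mem_R_of_T n ∅ v hω (by simp))).trans ?_
  exact P_R_le ν hq n ∅ v (by simp)

lemma Rc_base {ω : Vx → Bool} {v : Cell} (h : ht v ≤ 0) : Rc ω v := ⟨0, h⟩

lemma Rc_right {ω : Vx → Bool} {v : Cell} (h : Rc ω v) : Rc ω (v.1, v.2 + 1) := by
  obtain ⟨n, hn⟩ := h
  refine ⟨n + 1, Or.inr (Or.inl ?_)⟩
  simpa using hn

lemma Rc_left {ω : Vx → Bool} {v : Cell} (h : Rc ω v) : Rc ω (v.1 - 1, v.2) := by
  obtain ⟨n, hn⟩ := h
  refine ⟨n + 1, Or.inr (Or.inr (Or.inl ?_))⟩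
  simpa using hn

lemma Rc_up {ω : Vx → Bool} {v : Cell} (h : Rc ω v) (hb : bad ω (v.1 + 1, v.2 - 1)) :
    Rc ω (v.1 + 1, v.2 - 1) := by
  obtain ⟨n, hn⟩ := h
  refine ⟨n + 1, Or.inr (Or.inr (Or.inr ⟨hb, ?_⟩))⟩
  simpa using hn

lemma ae_column (ν : Measure Bool) [IsProbabilityMeasure ν]
    (hq : ∀ v, PB ν {ω : Vx → Bool | bad ω v} ≤ 1 / 32) (k : ℤ) :
    ∀ᵐ ω ∂(PB ν), ∃ i : ℤ, ¬ Rc ω (i, k - i) := by
  rw [ae_iff]
  simp only [not_exists, not_not]
  have h1 : ∀ n : ℕ, PB ν {ω : Vx → Bool | ∀ i : ℤ, Rc ω (i, k - i)} ≤ (1 / 4) ^ n := by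
    intro n
    obtain ⟨j, hj⟩ : ∃ j : ℤ, (n : ℤ) ≤ ht (j, k - j) := by
      refine ⟨|k| + n, ?_⟩
      simp only [ht]
      have := neg_abs_le k
      have := le_abs_self k
      omega
    have h4 := P_Rc_le ν hq (j, k - j)
    have h5 : Φ (ht (j, k - j)) ≤ (1 / 4 : ℝ≥0∞) ^ n := by
      unfold Φ
      apply pow_le_pow_of_le_one bot_le
      · rw [ENNReal.div_le_iff (by simp) (by simp)]; norm_num
      · omega
    have hsub : {ω : Vx → Bool | ∀ i : ℤ, Rc ω (i, k - i)} ⊆ {ω | Rc ω (j, k - j)} :=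
      fun ω hω => hω j
    exact (measure_mono hsub).trans (h4.trans h5)
  have h2 : Filter.Tendsto (fun n : ℕ => (1 / 4 : ℝ≥0∞) ^ n) Filter.atTop (nhds 0) :=
    ENNReal.tendsto_pow_atTop_nhds_zero_of_lt_one (by
      rw [ENNReal.div_lt_iff (by simp) (by simp)]; norm_num)
  exact le_antisymm (ge_of_tendsto' h2 h1) bot_le

/-- A bi-infinite oriented path of good cells. -/
lemma exists_path {ω : Vx → Bool} (h : ∀ k : ℤ, ∃ i : ℤ, ¬ Rc ω (i, k - i)) :
    ∃ m : ℤ → ℤ, (∀ k, m (k + 1) = m k ∨ m (k + 1) = m k + 1) ∧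
      ∀ k, ¬ bad ω (m k, k - m k) := by
  classical
  have hdown : ∀ (k i : ℤ), Rc ω (i, k - i) → Rc ω (i - 1, k - (i - 1)) := by
    intro k i hi
    have h1 := Rc_left (Rc_right hi)
    simp only at h1
    have : k - i + 1 = k - (i - 1) := by ring
    rwa [this] at h1
  have hdown' : ∀ (k i j : ℤ), j ≤ i → Rc ω (i, k - i) → Rc ω (j, k - j) := by
    intro k i j hji hi
    obtain ⟨d, rfl⟩ : ∃ d : ℕ, i = j + d := ⟨(i - j).toNat, by omega⟩
    clear hji
    induction d with
    | zero => simpa using hi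
    | succ d ih =>
      apply ih
      have := hdown k _ hi
      push_cast at this
      have e : j + (d + 1) - 1 = j + (d : ℤ) := by ring
      rwa [e] at this
  -- the first unreached cell of the column
  have hex : ∀ k : ℤ, ∃ m : ℤ, ¬ Rc ω (m, k - m) ∧ Rc ω (m - 1, k - (m - 1)) := by
    intro k
    obtain ⟨i, hi⟩ := h k
    -- start from a reached one
    obtain ⟨j, hj⟩ : ∃ j : ℤ, Rc ω (j, k - j) := by
      refine ⟨-|k|, Rc_base ?_⟩
      simp only [ht]
      have := neg_abs_le k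
      have := le_abs_self k
      omega
    have hji : j < i := by
      by_contra hc
      push Not at hc
      exact hi (hdown' k j i hc hj)
    obtain ⟨d, hd⟩ : ∃ d : ℕ, i = j + d := ⟨(i - j).toNat, by omega⟩
    have hP : ∃ e : ℕ, ¬ Rc ω (j + e, k - (j + e)) := ⟨d, by rw [← hd]; exact hi⟩
    refine ⟨j + (Nat.find hP : ℕ), Nat.find_spec hP, ?_⟩
    have hpos : 0 < Nat.find hP := by
      rw [Nat.find_pos]
      simpa using hj
    have := Nat.find_min hP (m := Nat.find hP - 1) (by omega)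
    push Not at this
    have e : ((Nat.find hP - 1 : ℕ) : ℤ) = (Nat.find hP : ℤ) - 1 := by
      rw [Nat.cast_sub hpos]; simp
    rw [e] at this
    have e2 : j + ((Nat.find hP : ℤ) - 1) = j + (Nat.find hP : ℤ) - 1 := by ring
    rwa [e2] at this
  choose m hm1 hm2 using hex
  refine ⟨m, ?_, ?_⟩
  · intro k
    -- `m (k+1) ≥ m k`
    have h1 : m k ≤ m (k + 1) := by
      by_contra hc
      push Not at hc
      have h2 := Rc_right (hm2 k)
      simp only at h2
      have e : k - (m k - 1) + 1 = k + 1 - (m k - 1) := by ring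
      rw [e] at h2
      exact hm1 (k + 1) (hdown' (k + 1) _ _ (by omega) h2)
    have h2 : m (k + 1) ≤ m k + 1 := by
      by_contra hc
      push Not at hc
      have h2 := Rc_left (hm2 (k + 1))
      simp only at h2
      have e : k + 1 - (m (k + 1) - 1) = k - (m (k + 1) - 1 - 1) := by ring
      rw [e] at h2
      exact hm1 k (hdown' k _ _ (by omega) h2)
    omega
  · intro k hb
    apply hm1 k
    have h1 := Rc_up (hm2 k) (by
      simp only
      have e1 : m k - 1 + 1 = m k := by ring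
      have e2 : k - (m k - 1) - 1 = k - m k := by ring
      rw [e1, e2]
      exact hb)
    simp only at h1
    have e1 : m k - 1 + 1 = m k := by ring
    have e2 : k - (m k - 1) - 1 = k - m k := by ring
    rwa [e1, e2] at h1

end Pool.Agent.V11321.BP
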