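import Mathlib
import Pool.Agent.V11321.BP.Perc

/-!
Two-neighbour contamination on a graph, fortresses, quasi-isometries, and the graph on
`ℤ² × {a, b} × {1, 2}` in which the cell `c` is the 4-cycle `a₁ b₁ a₂ b₂` and `aᵢ(c)` is joined to
`bᵢ(c + e₁)` and `bᵢ(c + e₂)`.
-/

set_option autoImplicit false
set_option linter.unusedSectionVars false

open MeasureTheory ProbabilityTheory
open scoped ENNReal NNReal

namespace Pool.Agent.V11321.BP

/-- The 2-neighbour contamination map (`true` = infected). -/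
noncomputable def contaminate {V : Type*} (G : SimpleGraph V) (c : V → Bool) : V → Bool :=
  fun v => by
    classical
    exact decide (c v = true ∨ 2 ≤ {w | G.Adj v w ∧ c w = true}.encard)

/-- The invasion set: every vertex is eventually infected. -/
def Invasion {V : Type*} (G : SimpleGraph V) : Set (V → Bool) :=
  {c | ∀ v, ∃ n : ℕ, (contaminate G)^[n] c v = true}

/-- A fortress: a finite nonempty set of vertices, each of which has at most one neighbour
outside. -/
def IsFortress {V : Type*} (G : SimpleGraph V) (S : Set V) : Prop :=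
  S.Finite ∧ S.Nonempty ∧ ∀ v ∈ S, {w | G.Adj v w ∧ w ∉ S}.encard ≤ 1

/-- The square lattice. -/
def Z2 : SimpleGraph (ℤ × ℤ) where
  Adj u v := |u.1 - v.1| + |u.2 - v.2| = 1
  symm := ⟨fun u v h => by rw [abs_sub_comm v.1, abs_sub_comm v.2]; exact h⟩
  loopless := ⟨fun u h => by simp at h⟩

/-- Two connected graphs are quasi-isometric (for their graph metrics). -/
def QuasiIsometric {V W : Type*} (G : SimpleGraph V) (H : SimpleGraph W) : Prop :=
  ∃ (f : V → W) (A B : ℝ), 1 ≤ A ∧ 0 ≤ B ∧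
    (∀ x y, (G.dist x y : ℝ) / A - B ≤ H.dist (f x) (f y) ∧
      (H.dist (f x) (f y) : ℝ) ≤ A * G.dist x y + B) ∧
    ∀ z, ∃ x, (H.dist (f x) z : ℝ) ≤ B

/-- The Bernoulli measure: every vertex is infected with probability `p`, independently. -/
noncomputable def bern {V : Type*} (p : unitInterval) : Measure (V → Bool) :=
  Measure.infinitePi (fun _ => bernoulliMeasure true false p)

lemma iterate_false {V : Type*} {G : SimpleGraph V} {S : Set V}
    (hS : ∀ v ∈ S, {w | G.Adj v w ∧ w ∉ S}.encard ≤ 1) (n : ℕ) :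
    ∀ {c : V → Bool}, (∀ v ∈ S, c v = false) → ∀ v ∈ S, (contaminate G)^[n] c v = false := by
  classical
  induction n with
  | zero => intro c hc v hv; exact hc v hv
  | succ n ih =>
    intro c hc v hv
    rw [Function.iterate_succ, Function.comp_apply]
    refine ih (fun v hv => ?_) v hv
    unfold contaminate
    rw [decide_eq_false_iff_not]
    rintro (h | h)
    · rw [hc v hv] at h
      exact absurd h (by decide)
    · have h1 : {w | G.Adj v w ∧ c w = true} ⊆ {w | G.Adj v w ∧ w ∉ S} := by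
        rintro w ⟨h1, h2⟩
        refine ⟨h1, fun hw => ?_⟩
        rw [hc w hw] at h2
        exact absurd h2 (by decide)
      have h2 := h.trans ((Set.encard_le_encard h1).trans (hS v hv))
      exact absurd h2 (by decide)

/-- The arcs from the vertices `a` to the vertices `b`. -/
def Arc (u v : Vx) : Prop :=
  u.2.1 = true ∧ v.2.1 = false ∧
    (v.1 = u.1 ∨ (v.2.2 = u.2.2 ∧ (v.1 = (u.1.1 + 1, u.1.2) ∨ v.1 = (u.1.1, u.1.2 + 1))))

/-- The graph. -/
def Gr : SimpleGraph Vx where
  Adj u v := Arc u v ∨ Arc v u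
  symm := ⟨fun _ _ h => h.symm⟩
  loopless := ⟨fun u h => by
    rcases h with h | h <;>
    · have h1 := h.1
      rw [h.2.1] at h1
      exact absurd h1 (by decide)⟩

lemma nbhd_a (c : Cell) (i : Bool) : {w | Gr.Adj (c, true, i) w} =
    {(c, false, false), (c, false, true), ((c.1 + 1, c.2), false, i), ((c.1, c.2 + 1), false, i)} := by
  ext ⟨w, s, j⟩
  simp only [Gr, Arc, Set.mem_ofPred_eq, Set.mem_insert_iff, Set.mem_singleton_iff, Prod.mk.injEq]
  constructor
  · rintro (⟨-, rfl, h⟩ | ⟨-, h, -⟩)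
    · rcases h with rfl | ⟨rfl, rfl | rfl⟩
      · cases j <;> simp
      · right; right; left; simp
      · right; right; right; simp
    · exact absurd h (by decide)
  · rintro (⟨rfl, rfl, rfl⟩ | ⟨rfl, rfl, rfl⟩ | ⟨rfl, rfl, rfl⟩ | ⟨rfl, rfl, rfl⟩)
    · left; simp
    · left; simp
    · left; simp
    · left; simp

lemma nbhd_b (c : Cell) (i : Bool) : {w | Gr.Adj (c, false, i) w} =
    {(c, true, false), (c, true, true), ((c.1 - 1, c.2), true, i), ((c.1, c.2 - 1), true, i)} := by
  ext ⟨w, s, j⟩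
  simp only [Gr, Arc, Set.mem_ofPred_eq, Set.mem_insert_iff, Set.mem_singleton_iff, Prod.mk.injEq]
  constructor
  · rintro (⟨h, -, -⟩ | ⟨rfl, -, h⟩)
    · exact absurd h (by decide)
    · rcases h with rfl | ⟨rfl, rfl | rfl⟩
      · cases j <;> simp
      · right; right; left; simp
      · right; right; right; simp
  · rintro (⟨rfl, rfl, rfl⟩ | ⟨rfl, rfl, rfl⟩ | ⟨rfl, rfl, rfl⟩ | ⟨rfl, rfl, rfl⟩)
    · right; simp
    · right; simp
    · right; simp
    · right; simp

lemma regular (v : Vx) : (Gr.neighborSet v).encard = 4 := by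
  obtain ⟨c, s, i⟩ := v
  have hset : ∀ (a b c d : Vx), a ≠ b → a ≠ c → a ≠ d → b ≠ c → b ≠ d → c ≠ d →
      ({a, b, c, d} : Set Vx).encard = 4 := by
    intro a b c d h1 h2 h3 h4 h5 h6
    rw [Set.encard_insert_of_notMem (by simp [h1, h2, h3]),
      Set.encard_insert_of_notMem (by simp [h4, h5]), Set.encard_pair h6]
    norm_num
  cases s
  · have : Gr.neighborSet (c, false, i) = {w | Gr.Adj (c, false, i) w} := rfl
    rw [this, nbhd_b]
    apply hset <;> simp [Prod.ext_iff] <;> intro h <;> omega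
  · have : Gr.neighborSet (c, true, i) = {w | Gr.Adj (c, true, i) w} := rfl
    rw [this, nbhd_a]
    apply hset <;> simp [Prod.ext_iff]

lemma adj_ab (c : Cell) (i j : Bool) : Gr.Adj (c, true, i) (c, false, j) :=
  Or.inl ⟨rfl, rfl, Or.inl rfl⟩

lemma adj_ba (c : Cell) (i j : Bool) : Gr.Adj (c, false, j) (c, true, i) := (adj_ab c i j).symm

/-- Within a cell the distance is at most `2`. -/
lemma walk_cell (c : Cell) (s i s' i' : Bool) :
    ∃ p : Gr.Walk (c, s, i) (c, s', i'), p.length ≤ 2 := by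
  cases s <;> cases s'
  · exact ⟨.cons (adj_ba c true i) (.cons (adj_ab c true i') .nil), by simp⟩
  · exact ⟨.cons (adj_ba c i' i) .nil, by simp⟩
  · exact ⟨.cons (adj_ab c i i') .nil, by simp⟩
  · exact ⟨.cons (adj_ab c i true) (.cons (adj_ba c i' true) .nil), by simp⟩

lemma walk_step1 (c : Cell) (s i s' i' : Bool) :
    ∃ p : Gr.Walk (c, s, i) ((c.1 + 1, c.2), s', i'), p.length ≤ 5 := by
  obtain ⟨p, hp⟩ := walk_cell c s i true true
  obtain ⟨q, hq⟩ := walk_cell (c.1 + 1, c.2) false true s' i'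
  have h : Gr.Adj (c, true, true) ((c.1 + 1, c.2), false, true) :=
    Or.inl ⟨rfl, rfl, Or.inr ⟨rfl, Or.inl rfl⟩⟩
  refine ⟨p.append (.cons h q), ?_⟩
  rw [SimpleGraph.Walk.length_append, SimpleGraph.Walk.length_cons]
  omega

lemma walk_step2 (c : Cell) (s i s' i' : Bool) :
    ∃ p : Gr.Walk (c, s, i) ((c.1, c.2 + 1), s', i'), p.length ≤ 5 := by
  obtain ⟨p, hp⟩ := walk_cell c s i true true
  obtain ⟨q, hq⟩ := walk_cell (c.1, c.2 + 1) false true s' i'
  have h : Gr.Adj (c, true, true) ((c.1, c.2 + 1), false, true) :=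
    Or.inl ⟨rfl, rfl, Or.inr ⟨rfl, Or.inr rfl⟩⟩
  refine ⟨p.append (.cons h q), ?_⟩
  rw [SimpleGraph.Walk.length_append, SimpleGraph.Walk.length_cons]
  omega

lemma walk_adj {u v : ℤ × ℤ} (h : Z2.Adj u v) (s i s' i' : Bool) :
    ∃ p : Gr.Walk (u, s, i) (v, s', i'), p.length ≤ 5 := by
  obtain ⟨u1, u2⟩ := u
  obtain ⟨v1, v2⟩ := v
  have h' : |u1 - v1| + |u2 - v2| = 1 := h
  have hc : (v1 = u1 + 1 ∧ v2 = u2) ∨ (v1 = u1 ∧ v2 = u2 + 1) ∨ (u1 = v1 + 1 ∧ u2 = v2) ∨
      (u1 = v1 ∧ u2 = v2 + 1) := by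
    have a1 := abs_nonneg (u1 - v1)
    have a2 := abs_nonneg (u2 - v2)
    rcases abs_cases (u1 - v1) with ⟨b1, _⟩ | ⟨b1, _⟩ <;>
    rcases abs_cases (u2 - v2) with ⟨b2, _⟩ | ⟨b2, _⟩ <;> omega
  rcases hc with ⟨rfl, rfl⟩ | ⟨rfl, rfl⟩ | ⟨rfl, rfl⟩ | ⟨rfl, rfl⟩
  · exact walk_step1 (u1, v2) s i s' i'
  · exact walk_step2 (v1, u2) s i s' i'
  · obtain ⟨p, hp⟩ := walk_step1 (v1, u2) s' i' s i
    exact ⟨p.reverse, by rw [SimpleGraph.Walk.length_reverse]; exact hp⟩
  · obtain ⟨p, hp⟩ := walk_step2 (u1, v2) s' i' s i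
    exact ⟨p.reverse, by rw [SimpleGraph.Walk.length_reverse]; exact hp⟩

lemma walk_lift {u v : ℤ × ℤ} (p : Z2.Walk u v) : ∀ (s i s' i' : Bool),
    ∃ q : Gr.Walk (u, s, i) (v, s', i'), q.length ≤ 5 * p.length + 2 := by
  induction p with
  | @nil u =>
    intro s i s' i'
    obtain ⟨q, hq⟩ := walk_cell u s i s' i'
    exact ⟨q, by simpa using hq⟩
  | @cons u w v h p ih =>
    intro s i s' i'
    obtain ⟨q1, h1⟩ := walk_adj h s i true true
    obtain ⟨q2, h2⟩ := ih true true s' i'
    refine ⟨q1.append q2, ?_⟩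
    rw [SimpleGraph.Walk.length_append, SimpleGraph.Walk.length_cons]
    omega

lemma z2_step1 (u : ℤ × ℤ) : Z2.Adj u (u.1 + 1, u.2) := by
  show |u.1 - (u.1 + 1)| + |u.2 - u.2| = 1
  simp

lemma z2_step2 (u : ℤ × ℤ) : Z2.Adj u (u.1, u.2 + 1) := by
  show |u.1 - u.1| + |u.2 - (u.2 + 1)| = 1
  simp

lemma z2_reach_right (u : ℤ × ℤ) (n : ℕ) : Z2.Reachable u (u.1 + n, u.2) := by
  induction n with
  | zero => simp
  | succ n ih =>
    refine ih.trans ?_
    have := (z2_step1 (u.1 + n, u.2)).reachable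
    simp only at this
    push_cast
    rwa [← add_assoc]

lemma z2_reach_up (u : ℤ × ℤ) (n : ℕ) : Z2.Reachable u (u.1, u.2 + n) := by
  induction n with
  | zero => simp
  | succ n ih =>
    refine ih.trans ?_
    have := (z2_step2 (u.1, u.2 + n)).reachable
    simp only at this
    push_cast
    rwa [← add_assoc]

lemma z2_reach (u v : ℤ × ℤ) : Z2.Reachable u v := by
  have h1 : ∀ (a b y : ℤ), Z2.Reachable (a, y) (b, y) := by
    intro a b y
    rcases le_total a b with h | h
    · have := z2_reach_right (a, y) (b - a).toNat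
      simp only [Int.toNat_sub_of_le h] at this
      simpa using this
    · have := z2_reach_right (b, y) (a - b).toNat
      simp only [Int.toNat_sub_of_le h] at this
      simpa using this.symm
  have h2 : ∀ (x a b : ℤ), Z2.Reachable (x, a) (x, b) := by
    intro x a b
    rcases le_total a b with h | h
    · have := z2_reach_up (x, a) (b - a).toNat
      simp only [Int.toNat_sub_of_le h] at this
      simpa using this
    · have := z2_reach_up (x, b) (a - b).toNat
      simp only [Int.toNat_sub_of_le h] at this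
      simpa using this.symm
  exact (h1 u.1 v.1 u.2).trans (h2 v.1 u.2 v.2)

lemma connected : Gr.Connected := by
  refine ⟨?_⟩
  rintro ⟨u, s, i⟩ ⟨v, s', i'⟩
  obtain ⟨p⟩ := z2_reach u v
  obtain ⟨q, -⟩ := walk_lift p s i s' i'
  exact ⟨q⟩

lemma proj_arc {u v : Vx} (h : Arc u v) : u.1 = v.1 ∨ Z2.Adj u.1 v.1 := by
  obtain ⟨-, -, h | ⟨-, h | h⟩⟩ := h
  · exact Or.inl h.symm
  · right; rw [h]; exact z2_step1 _
  · right; rw [h]; exact z2_step2 _

lemma proj_walk {u v : Vx} (p : Gr.Walk u v) : ∃ q : Z2.Walk u.1 v.1, q.length ≤ p.length := by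
  induction p with
  | nil => exact ⟨.nil, le_rfl⟩
  | @cons u w v h p ih =>
    obtain ⟨q, hq⟩ := ih
    have hh : u.1 = w.1 ∨ Z2.Adj u.1 w.1 := by
      rcases h with h | h
      · exact proj_arc h
      · rcases proj_arc h with h | h
        · exact Or.inl h.symm
        · exact Or.inr h.symm
    rcases hh with hh | hh
    · refine ⟨q.copy hh.symm rfl, ?_⟩
      rw [SimpleGraph.Walk.length_copy, SimpleGraph.Walk.length_cons]
      omega
    · exact ⟨.cons hh q, by simpa using hq⟩

lemma quasi : QuasiIsometric Gr Z2 := by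
  refine ⟨Prod.fst, 5, 1, by norm_num, by norm_num, ?_, ?_⟩
  · rintro ⟨u, s, i⟩ ⟨v, s', i'⟩
    constructor
    · obtain ⟨p, hp⟩ := (z2_reach u v).exists_walk_length_eq_dist
      obtain ⟨q, hq⟩ := walk_lift p s i s' i'
      have h1 : Gr.dist (u, s, i) (v, s', i') ≤ 5 * Z2.dist u v + 2 := by
        rw [← hp]
        exact (SimpleGraph.dist_le q).trans hq
      have h2 : (Gr.dist (u, s, i) (v, s', i') : ℝ) ≤ 5 * Z2.dist u v + 2 := by exact_mod_cast h1
      simp only
      linarith
    · obtain ⟨p, hp⟩ := (connected.preconnected (u, s, i) (v, s', i')).exists_walk_length_eq_dist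
      obtain ⟨q, hq⟩ := proj_walk p
      have h1 : Z2.dist u v ≤ Gr.dist (u, s, i) (v, s', i') := by
        rw [← hp]
        exact (SimpleGraph.dist_le q).trans hq
      have h2 : (Z2.dist u v : ℝ) ≤ Gr.dist (u, s, i) (v, s', i') := by exact_mod_cast h1
      have h3 : (0 : ℝ) ≤ Gr.dist (u, s, i) (v, s', i') := Nat.cast_nonneg _
      simp only
      linarith
  · intro z
    exact ⟨(z, true, true), by simp⟩

lemma two_le_encard {V : Type*} {S : Set V} {a b : V} (hab : a ≠ b) (ha : a ∈ S) (hb : b ∈ S) :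
    2 ≤ S.encard := by
  rw [← Set.encard_pair hab]
  apply Set.encard_le_encard
  rintro x (rfl | rfl)
  · exact ha
  · exact hb

lemma no_fortress (S : Set Vx) : ¬ IsFortress Gr S := by
  classical
  rintro ⟨hfin, hne, hS⟩
  obtain ⟨v, hv, hmax⟩ := hfin.exists_maximalFor (fun v : Vx => v.1.1 + v.1.2) S hne
  obtain ⟨c, s, i⟩ := v
  have hout : ∀ (w : Vx), c.1 + c.2 < w.1.1 + w.1.2 → w ∉ S := by
    intro w hw hwS
    have := hmax hwS (by simp only; omega)
    simp only at this
    omega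
  have hA : ∀ i : Bool, (c, true, i) ∉ S := by
    intro i hi
    have h1 := hS _ hi
    have h2 : 2 ≤ {w | Gr.Adj (c, true, i) w ∧ w ∉ S}.encard := by
      refine two_le_encard (a := ((c.1 + 1, c.2), false, i)) (b := ((c.1, c.2 + 1), false, i))
        (by simp) ⟨?_, ?_⟩ ⟨?_, ?_⟩
      · exact Or.inl ⟨rfl, rfl, Or.inr ⟨rfl, Or.inl rfl⟩⟩
      · exact hout _ (by simp only; omega)
      · exact Or.inl ⟨rfl, rfl, Or.inr ⟨rfl, Or.inr rfl⟩⟩
      · exact hout _ (by simp only; omega)
    exact absurd (h2.trans h1) (by decide)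
  cases s
  · have h1 := hS _ hv
    have h2 : 2 ≤ {w | Gr.Adj (c, false, i) w ∧ w ∉ S}.encard := by
      refine two_le_encard (a := (c, true, true)) (b := (c, true, false)) (by simp) ⟨?_, ?_⟩ ⟨?_, ?_⟩
      · exact adj_ba c true i
      · exact hA true
      · exact adj_ba c false i
      · exact hA false
    exact absurd (h2.trans h1) (by decide)
  · exact hA i hv

lemma path_stable {m : ℤ → ℤ} (hm : ∀ k, m (k + 1) = m k ∨ m (k + 1) = m k + 1) :
    ∀ v ∈ {v : Vx | ∃ k, v.1 = (m k, k - m k)},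
      {w | Gr.Adj v w ∧ w ∉ {v : Vx | ∃ k, v.1 = (m k, k - m k)}}.encard ≤ 1 := by
  rintro ⟨c, s, i⟩ ⟨k, hk⟩
  simp only at hk
  subst hk
  cases s
  · -- a vertex `b`: one of the two cells below is on the path
    have hprev : ((m k - 1, k - m k) : Cell) = (m (k - 1), (k - 1) - m (k - 1)) ∨
        ((m k, k - m k - 1) : Cell) = (m (k - 1), (k - 1) - m (k - 1)) := by
      have := hm (k - 1)
      rw [sub_add_cancel] at this
      rcases this with h | h
      · right
        rw [h]
        ext <;> simp <;> ring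
      · left
        rw [h]
        ext <;> simp <;> ring
    rcases hprev with h | h
    · refine le_trans (Set.encard_le_encard (t := {((m k, k - m k - 1), true, i)}) ?_) (by simp)
      rintro w ⟨hw, hwS⟩
      have : w ∈ {w | Gr.Adj ((m k, k - m k), false, i) w} := hw
      rw [nbhd_b] at this
      simp only [Set.mem_insert_iff, Set.mem_singleton_iff] at this
      rcases this with rfl | rfl | rfl | rfl
      · exact absurd ⟨k, rfl⟩ hwS
      · exact absurd ⟨k, rfl⟩ hwS
      · exact absurd ⟨k - 1, h⟩ hwS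
      · rfl
    · refine le_trans (Set.encard_le_encard (t := {((m k - 1, k - m k), true, i)}) ?_) (by simp)
      rintro w ⟨hw, hwS⟩
      have : w ∈ {w | Gr.Adj ((m k, k - m k), false, i) w} := hw
      rw [nbhd_b] at this
      simp only [Set.mem_insert_iff, Set.mem_singleton_iff] at this
      rcases this with rfl | rfl | rfl | rfl
      · exact absurd ⟨k, rfl⟩ hwS
      · exact absurd ⟨k, rfl⟩ hwS
      · rfl
      · exact absurd ⟨k - 1, h⟩ hwS
  · have hnext : ((m k + 1, k - m k) : Cell) = (m (k + 1), (k + 1) - m (k + 1)) ∨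
        ((m k, k - m k + 1) : Cell) = (m (k + 1), (k + 1) - m (k + 1)) := by
      rcases hm k with h | h
      · right
        rw [h]
        ext <;> simp <;> ring
      · left
        rw [h]
        ext <;> simp
    rcases hnext with h | h
    · refine le_trans (Set.encard_le_encard (t := {((m k, k - m k + 1), false, i)}) ?_) (by simp)
      rintro w ⟨hw, hwS⟩
      have : w ∈ {w | Gr.Adj ((m k, k - m k), true, i) w} := hw
      rw [nbhd_a] at this
      simp only [Set.mem_insert_iff, Set.mem_singleton_iff] at this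
      rcases this with rfl | rfl | rfl | rfl
      · exact absurd ⟨k, rfl⟩ hwS
      · exact absurd ⟨k, rfl⟩ hwS
      · exact absurd ⟨k + 1, h⟩ hwS
      · rfl
    · refine le_trans (Set.encard_le_encard (t := {((m k + 1, k - m k), false, i)}) ?_) (by simp)
      rintro w ⟨hw, hwS⟩
      have : w ∈ {w | Gr.Adj ((m k, k - m k), true, i) w} := hw
      rw [nbhd_a] at this
      simp only [Set.mem_insert_iff, Set.mem_singleton_iff] at this
      rcases this with rfl | rfl | rfl | rfl
      · exact absurd ⟨k, rfl⟩ hwS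
      · exact absurd ⟨k, rfl⟩ hwS
      · rfl
      · exact absurd ⟨k + 1, h⟩ hwS

lemma P_bad_le {p : unitInterval} (hp : (p : ℝ) ≤ 1 / 128) (v : Cell) :
    PB (bernoulliMeasure true false p) {ω : Vx → Bool | bad ω v} ≤ 1 / 32 := by
  have h1 : {ω : Vx → Bool | bad ω v} ⊆ ⋃ x ∈ ({(v, false, false), (v, false, true), (v, true, false),
      (v, true, true)} : Finset Vx), {ω : Vx → Bool | ω x ∈ ({true} : Set Bool)} := by
    rintro ω ⟨s, i, h⟩
    simp only [Set.mem_iUnion]
    refine ⟨(v, s, i), ?_, h⟩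
    cases s <;> cases i <;> simp
  refine (measure_mono h1).trans ((measure_biUnion_finset_le _ _).trans ?_)
  have h2 : ∀ x : Vx, PB (bernoulliMeasure true false p) {ω : Vx → Bool | ω x ∈ ({true} : Set Bool)} ≤
      ENNReal.ofReal (1 / 128) := by
    intro x
    rw [PB_coord, bernoulliMeasure_apply _ (measurableSet_singleton true)]
    simp only [Set.mem_singleton_iff, if_true]
    rw [if_neg (by decide)]
    rw [← ENNReal.ofReal_coe_nnreal]
    apply ENNReal.ofReal_le_ofReal
    simpa using hp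
  refine (Finset.sum_le_sum (fun x _ => h2 x)).trans ?_
  rw [Finset.sum_const]
  have h3 : ({(v, false, false), (v, false, true), (v, true, false), (v, true, true)} :
      Finset Vx).card ≤ 4 := Finset.card_le_four
  calc _ ≤ (4 : ℕ) • ENNReal.ofReal (1 / 128) := nsmul_le_nsmul_left bot_le h3
    _ = 1 / 32 := by
      rw [nsmul_eq_mul]
      have : ENNReal.ofReal (1 / 128) = ((1 / 128 : ℝ≥0) : ℝ≥0∞) := by
        rw [← ENNReal.ofReal_coe_nnreal]
        norm_num
      rw [this]
      have e : (1 / 32 : ℝ≥0∞) = ((1 / 32 : ℝ≥0) : ℝ≥0∞) := by push_cast; norm_num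
      rw [e]
      norm_cast
      norm_num

lemma invasion_null {p : unitInterval} (hp : (p : ℝ) ≤ 1 / 128) :
    bern p (Invasion Gr) = 0 := by
  have h1 : ∀ᵐ ω ∂(PB (bernoulliMeasure true false p) : Measure (Vx → Bool)),
      ∀ k : ℤ, ∃ i : ℤ, ¬ Rc ω (i, k - i) :=
    ae_all_iff.mpr fun k => ae_column _ (P_bad_le hp) k
  have h2 : ∀ᵐ ω ∂(PB (bernoulliMeasure true false p) : Measure (Vx → Bool)), ω ∉ Invasion Gr := by
    filter_upwards [h1] with ω hω hI
    obtain ⟨m, hm1, hm2⟩ := exists_path hω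
    have hc : ∀ v ∈ {v : Vx | ∃ k, v.1 = (m k, k - m k)}, ω v = false := by
      rintro ⟨c, s, i⟩ ⟨k, hk⟩
      simp only at hk
      subst hk
      by_contra hne
      rw [Bool.not_eq_false] at hne
      exact hm2 k ⟨s, i, hne⟩
    obtain ⟨n, hn⟩ := hI ((m 0, 0 - m 0), true, true)
    have := iterate_false (path_stable hm1) n hc ((m 0, 0 - m 0), true, true) ⟨0, rfl⟩
    rw [this] at hn
    exact absurd hn (by decide)
  have h3 := ae_iff.mp h2
  show PB (bernoulliMeasure true false p) (Invasion Gr) = 0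
  simpa using h3

end Pool.Agent.V11321.BP
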